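import Mathlib
import Pool.Agent.K4H46.RX.MAIN
import Pool.Agent.K4H46.RX.NEC3
set_option autoImplicit false

/-!
# A sharp mixed norm estimate for the extension operator of the paraboloid in `ℝ³`

`ext U f ξ = ∫_U e^{-i Φ(x)·ξ} f(x) dx`, `Φ(x) = (x_1, x_2, x_1² + x_2²)`, `U ⊆ B(0, 1/2)`.
For an orthonormal basis `e` write `ξ = y_0 e_0 + y_1 e_1 + s e_2`. We study

`‖ ‖ext U f‖_{L²(ds)} ‖_{L^p(dy)} ≤ C ‖f‖_{L^r(U)}`,

that is the `L^{p/2}` norm of the X-ray transform of `|ext U f|²` in the direction `e_2`.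

* Sufficiency: for `p > 4` and `r ≥ 2p/(p-2)` it holds with a constant `C(p)`, the same for all
  directions `e_2` and all `U`.
* Sharpness: if `U` has interior points then a bound uniform in the directions holds exactly
  for `p > 4`, `r ≥ 2p/(p-2)`; the condition `p > 4` is necessary for every single
  direction, and `r ≥ 2p/(p-2)` for every single direction normal to the paraboloid over
  an interior point of `U`.
-/

namespace Pool.Agent.Results.MP_5ab805_an.LineMixedNorm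

open MeasureTheory Set Metric Complex
open scoped ENNReal NNReal RealInnerProductSpace

abbrev E (n : ℕ) := EuclideanSpace ℝ (Fin n)

/-- the paraboloid `x ↦ (x_1, x_2, x_1^2 + x_2^2)` -/
noncomputable def Phi (x : E 2) : E 3 := !₂[x 0, x 1, x 0 ^ 2 + x 1 ^ 2]

/-- the Fourier extension operator of the paraboloid over `U` -/
noncomputable def ext (U : Set (E 2)) (f : E 2 → ℂ) (ξ : E 3) : ℂ :=
  ∫ x in U, Complex.exp (-((⟪Phi x, ξ⟫ : ℝ) : ℂ) * I) * f x

/-- the mixed norm estimate: `L^2` along the lines in the direction `e 2` and `L^p` across them -/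
def Holds (U : Set (E 2)) (p : ℝ) (r : ℝ≥0∞) (e : OrthonormalBasis (Fin 3) ℝ (E 3))
    (C : ℝ≥0) : Prop :=
  ∀ f : E 2 → ℂ, MemLp f r (volume.restrict U) →
    (∫⁻ y : E 2, (∫⁻ s : ℝ, ‖ext U f (y 0 • e 0 + y 1 • e 1 + s • e 2)‖ₑ ^ 2) ^ (p / 2)) ^ (1 / p) ≤
      C * eLpNorm f r (volume.restrict U)

/-- the tangent vector of the paraboloid over `x₀` in the direction `v` -/
noncomputable def tangent (x₀ v : E 2) : E 3 := !₂[v 0, v 1, 2 * (x₀ 0 * v 0 + x₀ 1 * v 1)]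

theorem suff {p : ℝ} (hp : 4 < p) : ∃ C : ℝ≥0, ∀ U : Set (E 2), U ⊆ ball 0 (1 / 2) →
    ∀ (e : OrthonormalBasis (Fin 3) ℝ (E 3)) (r : ℝ≥0∞), ENNReal.ofReal (2 * p / (p - 2)) ≤ r →
      Holds U p r e C := by
  obtain ⟨C, hC⟩ := K4H46.RX.mixed (q := p / 2) (by linarith)
  have hp0 : 0 < p := by linarith
  have hp2 : 0 < p - 2 := by linarith
  refine ⟨C ^ (1 / p), ?_⟩
  intro U hU e r hr f hf
  -- the measurable hull
  set V : Set (E 2) := ball 0 (1 / 2) ∩ toMeasurable volume U with hV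
  have hVm : MeasurableSet V := isOpen_ball.measurableSet.inter (measurableSet_toMeasurable _ _)
  have hVb : V ⊆ ball 0 (1 / 2) := inter_subset_left
  have hUfin : (volume : Measure (E 2)) U ≠ ∞ :=
    ne_top_of_le_ne_top (measure_ball_lt_top).ne (measure_mono hU)
  have hres : (volume : Measure (E 2)).restrict U = volume.restrict V := by
    rw [hV, ← Measure.restrict_restrict isOpen_ball.measurableSet,
      Measure.restrict_toMeasurable hUfin, Measure.restrict_restrict isOpen_ball.measurableSet,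
      inter_eq_right.2 hU]
  have hVfin : (volume : Measure (E 2)) V ≤ 1 := by
    refine (measure_mono hVb).trans ?_
    rw [EuclideanSpace.volume_ball_fin_two, ← ENNReal.ofReal_pow (by norm_num),
      ← ENNReal.ofReal_mul (by norm_num), ← ENNReal.ofReal_one]
    apply ENNReal.ofReal_le_ofReal
    have := Real.pi_le_four
    linarith
  have hVfin' : IsFiniteMeasure ((volume : Measure (E 2)).restrict V) :=
    ⟨by rw [Measure.restrict_apply_univ]; exact lt_of_le_of_lt hVfin ENNReal.one_lt_top⟩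
  rw [hres] at hf ⊢
  set ρ : ℝ := 2 * p / (p - 2) with hρ
  have hρ0 : 0 < ρ := by positivity
  have hρ1 : 1 ≤ ρ := by
    rw [hρ, le_div_iff₀ hp2]
    linarith
  set g : E 2 → ℂ := hf.1.mk f with hg
  have hgm : Measurable g := hf.1.stronglyMeasurable_mk.measurable
  have hgf : f =ᵐ[volume.restrict V] g := hf.1.ae_eq_mk
  set F : E 2 → ℂ := V.indicator g with hF
  have hFm : Measurable F := hgm.indicator hVm
  have hf1 : MemLp f 1 (volume.restrict V) := hf.mono_exponent (by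
    refine le_trans ?_ hr
    rw [← ENNReal.ofReal_one]
    exact ENNReal.ofReal_le_ofReal hρ1)
  have hFi : Integrable F := by
    rw [hF, integrable_indicator_iff hVm]
    exact (memLp_one_iff_integrable.1 hf1).congr hgf
  have hext : ∀ ξ : E 3, ext U f ξ = K4H46.RX.EE F ξ := by
    intro ξ
    unfold ext K4H46.RX.EE
    rw [hres, ← integral_indicator hVm]
    have h1 : ∫ x, V.indicator (fun x => Complex.exp (-((⟪Phi x, ξ⟫ : ℝ) : ℂ) * I) * f x) x =
        ∫ x, V.indicator (fun x => Complex.exp (-((⟪Phi x, ξ⟫ : ℝ) : ℂ) * I) * g x) x := by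
      rw [integral_indicator hVm, integral_indicator hVm]
      refine integral_congr_ae ?_
      filter_upwards [hgf] with x hx
      rw [hx]
    rw [h1]
    refine integral_congr_ae (Filter.Eventually.of_forall fun x => ?_)
    simp only [hF]
    by_cases hx : x ∈ V
    · rw [indicator_of_mem hx, indicator_of_mem hx]
      rfl
    · rw [indicator_of_notMem hx, indicator_of_notMem hx, mul_zero]
  have hmain := hC e V hVm hVb F hFm hFi (fun x hx => indicator_of_notMem hx _)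
  have hLHS : ∫⁻ y : E 2, (∫⁻ s : ℝ, ‖ext U f (y 0 • e 0 + y 1 • e 1 + s • e 2)‖ₑ ^ 2) ^ (p / 2) =
      ∫⁻ y : E 2, (∫⁻ s : ℝ, ‖K4H46.RX.EE F (K4H46.RX.pt e y s)‖ₑ ^ 2) ^ (p / 2) := by
    simp_rw [hext]
    rfl
  rw [hLHS]
  have hexp : 2 * (p / 2 / (p / 2 - 1)) = ρ := by
    rw [hρ]
    have : p / 2 - 1 = (p - 2) / 2 := by ring
    rw [this]
    field_simp
  have hnorm : (∫⁻ x, ‖F x‖ₑ ^ ρ) ^ (1 / ρ) = eLpNorm f (ENNReal.ofReal ρ) (volume.restrict V) := by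
    rw [eLpNorm_congr_ae hgf, eLpNorm_eq_lintegral_rpow_enorm_toReal (by simpa using hρ0)
      ENNReal.ofReal_ne_top, ENNReal.toReal_ofReal hρ0.le, ← lintegral_indicator hVm]
    congr 1
    refine lintegral_congr fun x => ?_
    simp only [hF]
    by_cases hx : x ∈ V
    · rw [indicator_of_mem hx, indicator_of_mem hx]
    · rw [indicator_of_notMem hx, indicator_of_notMem hx, enorm_zero,
        ENNReal.zero_rpow_of_pos hρ0]
  have hmono : eLpNorm f (ENNReal.ofReal ρ) (volume.restrict V) ≤ eLpNorm f r (volume.restrict V) := by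
    have h1 := eLpNorm_le_eLpNorm_mul_rpow_measure_univ hr hf.1
    refine h1.trans ?_
    rw [Measure.restrict_apply_univ]
    refine mul_le_of_le_one_right zero_le ?_
    refine ENNReal.rpow_le_one hVfin ?_
    rw [sub_nonneg]
    rcases eq_or_ne r ∞ with rfl | hrt
    · rw [ENNReal.toReal_top, div_zero]
      positivity
    · have h2 := ENNReal.toReal_mono hrt hr
      rw [ENNReal.toReal_ofReal hρ0.le] at h2 ⊢
      exact one_div_le_one_div_of_le hρ0 h2
  calc (∫⁻ y : E 2, (∫⁻ s : ℝ, ‖K4H46.RX.EE F (K4H46.RX.pt e y s)‖ₑ ^ 2) ^ (p / 2)) ^ (1 / p)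
      ≤ (C * (∫⁻ x, ‖F x‖ₑ ^ (2 * (p / 2 / (p / 2 - 1)))) ^ (p / 2 - 1)) ^ (1 / p) := by
        gcongr
    _ = (C : ℝ≥0∞) ^ (1 / p) * (∫⁻ x, ‖F x‖ₑ ^ ρ) ^ (1 / ρ) := by
        rw [ENNReal.mul_rpow_of_nonneg _ _ (by positivity), hexp, ← ENNReal.rpow_mul]
        congr 2
        rw [hρ]
        field_simp
    _ = (C : ℝ≥0∞) ^ (1 / p) * eLpNorm f (ENNReal.ofReal ρ) (volume.restrict V) := by rw [hnorm]
    _ ≤ (C : ℝ≥0∞) ^ (1 / p) * eLpNorm f r (volume.restrict V) := by gcongr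
    _ = ((C ^ (1 / p) : ℝ≥0) : ℝ≥0∞) * eLpNorm f r (volume.restrict V) := by
        rw [ENNReal.coe_rpow_of_nonneg _ (by positivity)]

/-- discs inside `U` -/
theorem ext_db {U : Set (E 2)} {x₀ : E 2} {δ : ℝ} (h : ball x₀ δ ⊆ U) (ξ : E 3) :
    ext U (K4H46.RX.db x₀ δ) ξ = K4H46.RX.EE (K4H46.RX.db x₀ δ) ξ := by
  unfold ext K4H46.RX.EE
  refine setIntegral_eq_integral_of_forall_compl_eq_zero fun x hx => ?_
  rw [K4H46.RX.db_notMem (fun h' => hx (h h')), mul_zero]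

theorem db_norm {U : Set (E 2)} {x₀ : E 2} {δ : ℝ} (hδ : 0 < δ) (h : ball x₀ δ ⊆ U) {r : ℝ≥0∞}
    (hr : 1 ≤ r) (hrt : r ≠ ∞) :
    eLpNorm (K4H46.RX.db x₀ δ) r (volume.restrict U) =
      ENNReal.ofReal ((Real.pi * δ ^ 2) ^ (1 / r.toReal)) := by
  have hr0 : r ≠ 0 := fun h0 => by rw [h0] at hr; simp at hr
  have hrp : 0 < r.toReal := ENNReal.toReal_pos hr0 hrt
  rw [eLpNorm_eq_lintegral_rpow_enorm_toReal hr0 hrt]
  have h1 : ∀ x, ‖K4H46.RX.db x₀ δ x‖ₑ ^ r.toReal =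
      (ball x₀ δ).indicator (fun _ => (1 : ℝ≥0∞)) x := by
    intro x
    by_cases hx : x ∈ ball x₀ δ
    · rw [indicator_of_mem hx, K4H46.RX.db_mem hx]
      simp
    · rw [indicator_of_notMem hx, K4H46.RX.db_notMem hx, enorm_zero,
        ENNReal.zero_rpow_of_pos hrp]
  simp_rw [h1]
  rw [lintegral_indicator isOpen_ball.measurableSet, lintegral_const, one_mul,
    Measure.restrict_apply_univ, Measure.restrict_apply isOpen_ball.measurableSet,
    inter_eq_left.2 h, EuclideanSpace.volume_ball_fin_two, ← ENNReal.ofReal_pow hδ.le,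
    ← ENNReal.ofReal_mul (by positivity), ENNReal.ofReal_rpow_of_nonneg (by positivity)
    (by positivity), mul_comm (δ ^ 2)]

theorem db_mem (U : Set (E 2)) (x₀ : E 2) (δ : ℝ) (r : ℝ≥0∞) (hU : volume U ≠ ∞) :
    MemLp (K4H46.RX.db x₀ δ) r (volume.restrict U) := by
  have hfin : IsFiniteMeasure ((volume : Measure (E 2)).restrict U) :=
    ⟨by rw [Measure.restrict_apply_univ]; exact lt_top_iff_ne_top.2 hU⟩
  refine MemLp.of_bound (K4H46.RX.db_meas x₀ δ).aestronglyMeasurable 1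
    (Filter.Eventually.of_forall fun x => ?_)
  by_cases hx : x ∈ ball x₀ δ
  · rw [K4H46.RX.db_mem hx]; simp
  · rw [K4H46.RX.db_notMem hx]; simp

theorem nec_p {U : Set (E 2)} (hU : U ⊆ ball 0 (1 / 2)) (hUo : (interior U).Nonempty) {p : ℝ}
    (hp : 1 ≤ p) {r : ℝ≥0∞} {e : OrthonormalBasis (Fin 3) ℝ (E 3)} {C : ℝ≥0}
    (h : Holds U p r e C) : 4 < p := by
  by_contra hp4
  obtain ⟨x₀, hx₀⟩ := hUo
  obtain ⟨δ, hδ, hb⟩ := Metric.isOpen_iff.1 isOpen_interior x₀ hx₀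
  have hbU : ball x₀ δ ⊆ U := hb.trans interior_subset
  have hUfin : (volume : Measure (E 2)) U ≠ ∞ :=
    ne_top_of_le_ne_top (measure_ball_lt_top).ne (measure_mono hU)
  have hmem := db_mem U x₀ δ r hUfin
  have h1 := h _ hmem
  have h2 := K4H46.RX.nec_p e hδ (hbU.trans hU) (q := p / 2) (by linarith)
  have h3 : ∫⁻ y : E 2, (∫⁻ s : ℝ,
      ‖ext U (K4H46.RX.db x₀ δ) (y 0 • e 0 + y 1 • e 1 + s • e 2)‖ₑ ^ 2) ^ (p / 2) = ∞ := by
    simp_rw [ext_db hbU]
    exact h2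
  rw [h3, ENNReal.top_rpow_of_pos (by positivity), top_le_iff] at h1
  exact ENNReal.mul_ne_top ENNReal.coe_ne_top hmem.2.ne h1

theorem nec_r {U : Set (E 2)} (hU : U ⊆ ball 0 (1 / 2)) {p : ℝ}
    (hp : 1 ≤ p) {r : ℝ≥0∞} (hr : 1 ≤ r) {e : OrthonormalBasis (Fin 3) ℝ (E 3)} {C : ℝ≥0}
    {x₀ : E 2} (hx₀ : x₀ ∈ interior U) (hn : ∀ v : E 2, (⟪e 2, tangent x₀ v⟫ : ℝ) = 0)
    (h : Holds U p r e C) : ENNReal.ofReal (2 * p / (p - 2)) ≤ r := by
  rcases eq_or_ne r ∞ with rfl | hrt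
  · exact le_top
  have hr0 : r ≠ 0 := fun h0 => by rw [h0] at hr; simp at hr
  have hrp : 0 < r.toReal := ENNReal.toReal_pos hr0 hrt
  have hp4 : 4 < p := nec_p hU ⟨x₀, hx₀⟩ hp h
  obtain ⟨δ₁, hδ₁, hb⟩ := Metric.isOpen_iff.1 isOpen_interior x₀ hx₀
  have hUfin : (volume : Measure (E 2)) U ≠ ∞ :=
    ne_top_of_le_ne_top (measure_ball_lt_top).ne (measure_mono hU)
  have hx₀n : ‖x₀‖ ≤ 1 / 2 := (mem_ball_zero_iff.1 (hU (interior_subset hx₀))).le
  have key := K4H46.RX.expo (p := p) (ρ := r.toReal) (A := C) (δ0 := min δ₁ 1) (by linarith)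
    (lt_min hδ₁ one_pos) C.2 (by
      intro δ hδ hδδ
      have hbU : ball x₀ δ ⊆ U :=
        (ball_subset_ball (hδδ.trans (min_le_left _ _))).trans (hb.trans interior_subset)
      have h1 := h _ (db_mem U x₀ δ r hUfin)
      rw [db_norm hδ hbU hr hrt] at h1
      have h2 := K4H46.RX.knapp e x₀ hx₀n hn δ hδ (hδδ.trans (min_le_right _ _)) (q := p / 2)
        (by linarith)
      have h3 : ∫⁻ y : E 2, (∫⁻ s : ℝ,
          ‖ext U (K4H46.RX.db x₀ δ) (y 0 • e 0 + y 1 • e 1 + s • e 2)‖ₑ ^ 2) ^ (p / 2) =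
          ∫⁻ y : E 2, (∫⁻ s : ℝ,
            ‖K4H46.RX.EE (K4H46.RX.db x₀ δ) (K4H46.RX.pt e y s)‖ₑ ^ 2) ^ (p / 2) := by
        simp_rw [ext_db hbU]
        rfl
      rw [h3] at h1
      have h4 := (ENNReal.rpow_le_rpow h2 (show 0 ≤ 1 / p by positivity)).trans h1
      rw [ENNReal.ofReal_rpow_of_nonneg (by positivity) (by positivity),
        ← ENNReal.ofReal_coe_nnreal, ← ENNReal.ofReal_mul (NNReal.coe_nonneg C),
        ENNReal.ofReal_le_ofReal_iff (by positivity)] at h4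
      exact h4)
  apply ENNReal.ofReal_le_of_le_toReal
  have hp2 : 0 < p - 2 := by linarith
  rw [div_le_iff₀ hrp] at key
  rw [div_le_iff₀ hp2]
  have h5 : (1 - 2 / p) * r.toReal = (p - 2) * r.toReal / p := by
    field_simp
  rw [h5, le_div_iff₀ (by linarith)] at key
  linarith

/-- a frame with a given normal -/
theorem exists_frame (x₀ : E 2) : ∃ e : OrthonormalBasis (Fin 3) ℝ (E 3),
    ∀ v : E 2, (⟪e 2, tangent x₀ v⟫ : ℝ) = 0 := by
  set n : E 3 := !₂[-2 * x₀ 0, -2 * x₀ 1, 1] with hn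
  have hn0 : n ≠ 0 := by
    intro h
    have : n 2 = 0 := by rw [h]; rfl
    simp [hn] at this
  have hnn : ‖n‖ ≠ 0 := norm_ne_zero_iff.2 hn0
  have hv : Orthonormal ℝ (({2} : Set (Fin 3)).domRestrict (fun _ : Fin 3 => (‖n‖⁻¹ • n : E 3))) := by
    constructor
    · intro i
      show ‖(‖n‖⁻¹ • n : E 3)‖ = 1
      rw [norm_smul, norm_inv, norm_norm]
      exact inv_mul_cancel₀ hnn
    · intro i j hij
      exact absurd (Subsingleton.elim i j) hij
  obtain ⟨b, hb⟩ := hv.exists_orthonormalBasis_extension_of_card_eq (by simp)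
  refine ⟨b, fun v => ?_⟩
  rw [hb 2 (mem_singleton 2), real_inner_smul_left]
  have : (⟪n, tangent x₀ v⟫ : ℝ) = 0 := by
    simp only [hn, tangent, PiLp.inner_apply, Fin.sum_univ_three]
    simp
    ring
  rw [this, mul_zero]

/-- **The result.** -/
theorem result :
    (∀ p : ℝ, 4 < p → ∃ C : ℝ≥0, ∀ U : Set (E 2), U ⊆ ball 0 (1 / 2) →
      ∀ (e : OrthonormalBasis (Fin 3) ℝ (E 3)) (r : ℝ≥0∞),
        ENNReal.ofReal (2 * p / (p - 2)) ≤ r → Holds U p r e C) ∧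
    (∀ U : Set (E 2), U ⊆ ball 0 (1 / 2) → (interior U).Nonempty →
      ∀ (p : ℝ) (r : ℝ≥0∞), 1 ≤ p → 1 ≤ r →
        ((∃ C : ℝ≥0, ∀ e : OrthonormalBasis (Fin 3) ℝ (E 3), Holds U p r e C) ↔
          4 < p ∧ ENNReal.ofReal (2 * p / (p - 2)) ≤ r) ∧
        (∀ (e : OrthonormalBasis (Fin 3) ℝ (E 3)) (C : ℝ≥0), Holds U p r e C → 4 < p) ∧
        (∀ (e : OrthonormalBasis (Fin 3) ℝ (E 3)) (C : ℝ≥0) (x₀ : E 2), x₀ ∈ interior U →
          (∀ v : E 2, (⟪e 2, tangent x₀ v⟫ : ℝ) = 0) → Holds U p r e C →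
            ENNReal.ofReal (2 * p / (p - 2)) ≤ r)) := by
  refine ⟨fun p hp => suff hp, ?_⟩
  intro U hU hUo p r hp hr
  refine ⟨⟨?_, ?_⟩, fun e C h => nec_p hU hUo hp h, fun e C x₀ hx₀ hn h => nec_r hU hp hr hx₀ hn h⟩
  · rintro ⟨C, hC⟩
    obtain ⟨x₀, hx₀⟩ := hUo
    obtain ⟨e, he⟩ := exists_frame x₀
    exact ⟨nec_p hU ⟨x₀, hx₀⟩ hp (hC e), nec_r hU hp hr hx₀ he (hC e)⟩
  · rintro ⟨hp4, hr'⟩
    obtain ⟨C, hC⟩ := suff hp4
    exact ⟨C, fun e => hC U hU e r hr'⟩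

end Pool.Agent.Results.MP_5ab805_an.LineMixedNorm
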